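import Pool.Agent.Helper34.FF.Goals1

/-!
# Barriers with one or two corners are good (packets 905 and 906)
-/

namespace Pool.Agent.Helper73.FF

open Finset Pool.Agent.Helper34.FF
open scoped Classical

/-- The first elements of two sequences that start at the same point. -/
noncomputable def nb {V : Type} (R L : ℕ → V) (m : ℕ) : Finset V :=
  {R 0} ∪ ((Icc 1 m).image R ∪ (Icc 1 m).image L)

lemma nb_card {V : Type} (R L : ℕ → V) (m : ℕ) : (nb R L m).card ≤ 1 + 2 * m := by
  have h1 : ((Icc 1 m).image R).card ≤ m := le_trans card_image_le (by simp)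
  have h2 : ((Icc 1 m).image L).card ≤ m := le_trans card_image_le (by simp)
  calc (nb R L m).card ≤ ({R 0} : Finset V).card + ((Icc 1 m).image R ∪ (Icc 1 m).image L).card :=
        card_union_le _ _
    _ ≤ 1 + (((Icc 1 m).image R).card + ((Icc 1 m).image L).card) := by
        gcongr
        · simp
        · exact card_union_le _ _
    _ ≤ 1 + 2 * m := by omega

lemma mem_nb {V : Type} {R L : ℕ → V} {m j : ℕ} {c : V} (h0 : L 0 = R 0) (hj : j ≤ m)
    (hc : c = R j ∨ c = L j) : c ∈ nb R L m := by
  unfold nb
  rcases Nat.eq_zero_or_pos j with rfl | hpos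
  · rcases hc with hc | hc
    · simp [hc]
    · simp [hc, h0]
  · simp only [mem_union, mem_singleton, mem_image, mem_Icc]
    rcases hc with hc | hc
    · exact Or.inr (Or.inl ⟨j, ⟨hpos, hj⟩, hc.symm⟩)
    · exact Or.inr (Or.inr ⟨j, ⟨hpos, hj⟩, hc.symm⟩)

theorem pf_StmtOneCorner : StmtOneCorner := by
  intro V G w z C ζ R L hζ hR hL hw h
  refine ⟨hw, fun t ht => ?_⟩
  by_cases hlt : t < ζ
  · have hE : (C.filter fun c => Hits G C w t c) = ∅ := by
      rw [filter_eq_empty_iff]
      intro c hc hh
      obtain ⟨j, _, hj⟩ := h c hc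
      have := hj t hh
      omega
    rw [hE]
    simp
  · have hsub : (C.filter fun c => Hits G C w t c) ⊆ nb R L (t - ζ) := by
      intro c hc
      rw [mem_filter] at hc
      obtain ⟨j, hj1, hj2⟩ := h c hc.1
      have := hj2 t hc.2
      exact mem_nb (by rw [hR, hL]) (by omega) hj1
    have h1 := card_le_card hsub
    have h2 := nb_card R L (t - ζ)
    omega

theorem pf_StmtTwoCorner : StmtTwoCorner := by
  intro V G w P Q C h dP dQ R L hh hdP hdQ hle hR0 hL0 hRh hLh hw H
  refine ⟨hw, fun t ht => ?_⟩
  set R' : ℕ → V := fun i => R (h - i) with hR'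
  set L' : ℕ → V := fun i => L (h - i) with hL'
  have e0 : L 0 = R 0 := by rw [hR0, hL0]
  have e0' : L' 0 = R' 0 := by simp [hR', hL', hRh, hLh]
  have key : ∀ c ∈ C.filter (fun c => Hits G C w t c),
      ∃ j ≤ h, (c = R j ∨ c = L j) ∧ min (dP + j) (dQ + (h - j)) ≤ t := by
    intro c hc
    rw [mem_filter] at hc
    obtain ⟨j, hj, hj1, hj2⟩ := H c hc.1
    exact ⟨j, hj, hj1, hj2 t hc.2⟩
  have hA : ∀ c j, j ≤ h → (c = R j ∨ c = L j) → dP + j ≤ t → c ∈ nb R L (t - dP) :=
    fun c j _ hc hj => mem_nb e0 (by omega) hc
  have hB : ∀ c j, j ≤ h → (c = R j ∨ c = L j) → dQ + (h - j) ≤ t → c ∈ nb R' L' (t - dQ) := by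
    intro c j hjh hc hj
    refine mem_nb (j := h - j) e0' (by omega) ?_
    simp only [hR', hL']
    rw [Nat.sub_sub_self hjh]
    exact hc
  have cA := nb_card R L (t - dP)
  have cB := nb_card R' L' (t - dQ)
  by_cases hP : dP ≤ t
  · by_cases hQ : dQ ≤ t
    · by_cases hbig : dP + dQ ≤ t
      · have hsub : (C.filter fun c => Hits G C w t c) ⊆ nb R L (h - 1) ∪ {R h} := by
          intro c hc
          obtain ⟨j, hj, hj1, _⟩ := key c hc
          rw [mem_union]
          by_cases hjh : j = h
          · right
            subst hjh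
            rw [mem_singleton]
            rcases hj1 with h1 | h1
            · exact h1
            · rw [h1, hLh, hRh]
          · left
            exact mem_nb e0 (by omega) hj1
        have h1 := card_le_card hsub
        have h2 := nb_card R L (h - 1)
        have h3 := card_union_le (nb R L (h - 1)) {R h}
        rw [card_singleton] at h3
        omega
      · have hsub : (C.filter fun c => Hits G C w t c) ⊆
            nb R L (t - dP) ∪ nb R' L' (t - dQ) := by
          intro c hc
          obtain ⟨j, hj, hj1, hj2⟩ := key c hc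
          rw [mem_union]
          rcases min_le_iff.mp hj2 with h1 | h1
          · exact Or.inl (hA c j hj hj1 h1)
          · exact Or.inr (hB c j hj hj1 h1)
        have h1 := card_le_card hsub
        have h3 := card_union_le (nb R L (t - dP)) (nb R' L' (t - dQ))
        omega
    · have hsub : (C.filter fun c => Hits G C w t c) ⊆ nb R L (t - dP) := by
        intro c hc
        obtain ⟨j, hj, hj1, hj2⟩ := key c hc
        rcases min_le_iff.mp hj2 with h1 | h1
        · exact hA c j hj hj1 h1
        · omega
      have h1 := card_le_card hsub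
      omega
  · by_cases hQ : dQ ≤ t
    · have hsub : (C.filter fun c => Hits G C w t c) ⊆ nb R' L' (t - dQ) := by
        intro c hc
        obtain ⟨j, hj, hj1, hj2⟩ := key c hc
        rcases min_le_iff.mp hj2 with h1 | h1
        · omega
        · exact hB c j hj hj1 h1
      have h1 := card_le_card hsub
      omega
    · have hE : (C.filter fun c => Hits G C w t c) = ∅ := by
        rw [eq_empty_iff_forall_notMem]
        intro c hc
        obtain ⟨j, hj, hj1, hj2⟩ := key c hc
        rcases min_le_iff.mp hj2 with h1 | h1 <;> omega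
      rw [hE]
      simp

end Pool.Agent.Helper73.FF
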